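import Pool.Agent.Y137.GN.Main
import Pool.Agent.X303.BassThms

/-!
# The rational part of the finite generation conjecture of Bass for the schemes over finite fields
generated by
abelian varieties of dimension at most five and by products of elliptic curves and abelian surfaces

Over an algebraic closure of the field with `p` elements each abelian variety is isogenous to the
reduction of an abelian variety of CM type (Honda, Tate). So an abelian variety over the field with
`p ^ a` elements is modelled by `RedAV`: a finite product of CM types `(E i, Φ i)` with Weil numbers
`π i ∈ E i` that satisfy the formula of Shimura and Taniyama; its cohomology of degree `n`, with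
coefficients in an algebraically closed field `Ω`, consists of the alternating `n`-forms on
`Ω ⊗ H_1`, on which the Frobenius endomorphism acts by `π`.

We consider (`IsGoodAVS`) the following abelian varieties `Y`, with any Newton polygons.

* **All abelian varieties of dimension at most five.**
* All abelian varieties that are isogenous, over an algebraic closure, to a product of a supersingular
  abelian variety (of any dimension) and of powers of abelian varieties of dimension at most three, where
  any two of these which have dimension three, are not supersingular and whose CM fields have the same
  Galois closure, are isogenous, unless these fields are Galois over `ℚ`. So `Y` may be **any product of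
  elliptic curves and abelian surfaces**.

`Homology Ω V` are data of motivic homology `M X i j = H_i^M(X, ℚ(j))` (higher Chow groups) and of
`ℓ`-adic homology `E X i j = H_i(X, ℚ_ℓ(j))` (coefficients extended to `Ω`) of schemes `X` over a
finite field, with the Frobenius and the regulator. The class `Generated` contains the schemes with the
homology groups of the abelian varieties above (`IsGoodAbelianS`), it contains the schemes whose motives
are direct summands of finite sums of twists of motives of members, and it contains all of `Z`, `X`,
`U = X ∖ Z` if it contains two of them. For instance it contains all products of curves of genus at
most two, their symmetric powers, the Hilbert schemes of points on products of two such curves and on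
abelian and Kummer surfaces, projective and flag bundles over such varieties, blow-ups, and so on.

The theorem: let `X` be a scheme of this class - regular or not, proper or not. The groups
`G m = K'_m(X)` are groups that embed, up to torsion, into the finite sum of the groups
`H_(m + 2 j)^M(X, ℚ(j)) = CH_j(X, m) ⊗ ℚ`, `j ∈ J m` (`IsBoundedKTheory`; Bloch). Then `K'_m(X) ⊗ ℚ` is
finite-dimensional for all `m`: the number of elements of `K'_m(X)` which are linearly independent over
`ℤ` is at most the sum of the numbers `invariantRank T X (m + 2 j) j`, the dimensions of the spaces
of the Frobenius invariant elements in `H_(m + 2 j)(X, ℚ_ℓ(j))`. For instance for all open subschemes of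
products of curves of genus at most two whose complements are stratified by such schemes.

Properties of the theory of cycles that are used for the abelian varieties `Y` (`IsChowS`,
`IsMotivic`): Poincaré duality, the formal properties of correspondences, the nilpotence of
homologically trivial correspondences (Kimura), the operation of the Frobenius endomorphism on higher
Chow groups, the vanishing of the higher rational `K`-groups of a finite field (Quillen), and the
algebraicity of the classes in `AlgS` (theorems of Tate, Markman and Ramón Marí). The Tate conjecture
for the abelian varieties `Y` (all Tate classes belong to `AlgS`) is proved in the starting files. The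
passage from the Tate conjecture to all degrees is due to Soulé, Geisser, Kahn and Jannsen.
-/

set_option autoImplicit false

namespace Pool.Agent.Results.MP_e17fa799_al.FiveAndSurfaces

open Pool.Agent.W495.TA Pool.Agent.W495.FM Pool.Agent.Y137.GN Pool.Agent.X303.TBDual

/-- The groups `K'_m(X)` have finite rank for all `X` of the class
generated by the abelian varieties `IsGoodAVS`. -/
theorem result (p : ℕ) [Fact p.Prime] (ν : PadicAlgCl p ≃+* ℂ) (Ω : Type) [Field Ω]
    [IsAlgClosed Ω] [CharZero Ω] (V : Type) (T : Homology Ω V) (hT : IsHomology T) (X : V) (hX :
    Generated T (IsGoodAbelianS p ν T) X) (J : ℤ → Finset ℤ) (G : ℤ → Type) [∀ m, AddCommGroup (G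
    m)] (hG : IsBoundedKTheory T X J G) (m : ℤ) (r : ℕ) (x : Fin r → G m) (hx : ∀ a : Fin r → ℤ, ∑
    k, a k • x k = 0 → a = 0) :
    r ≤ ∑ j ∈ J m, invariantRank T X (m + 2 * j) j :=
  bass_rational hT (tb_goodS hT hX) hG m r x hx

end Pool.Agent.Results.MP_e17fa799_al.FiveAndSurfaces
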